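import Pool.Agent.Q224.TD.CliqueLt
import Pool.Agent.Q224.TD.MinDeg
import Pool.Agent.Q224.TD.FewHigh
import Pool.Agent.Q224.TD.Cover
import Pool.Agent.Q224.TD.Transv
import Pool.Agent.Q224.TD.Cross
import Pool.Agent.Q224.TD.Assign
import Pool.Agent.Q224.TD.Parts
import Pool.Agent.Q224.TD.Cross2
import Pool.Agent.Q224.TD.Hit
import Pool.Agent.Q224.TD.Count
import Pool.Agent.Q224.TD.Arith
import Pool.Agent.Q224.TD.Lower
import Pool.Agent.Q224.TD.BlocksFree
import Pool.Agent.Q224.TD.BlocksSp
import Pool.Agent.Q224.TD.BlocksEq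
import Pool.Agent.Q224.TD.SubLe
import Pool.Agent.Q224.TD.SubEq
import Pool.Agent.Q224.TD.Final

/-!
# MP_303581_co: the minimum 2-density in the divisible case, for large quotient
-/

set_option autoImplicit false

namespace Pool.Agent.Results.MP_303581_co.DivisibleLargeK

/-- `x` is the 2-density of `G`: the maximum of `(e(F) - 1) / (v(F) - 2)` over all subgraphs `F` of
`G` with at least three vertices. -/
def IsTwoDensity {V : Type} (G : SimpleGraph V) (x : ℝ) : Prop :=
  IsGreatest {d : ℝ | ∃ F : G.Subgraph, 3 ≤ F.verts.ncard ∧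
    d = ((F.edgeSet.ncard : ℝ) - 1) / ((F.verts.ncard : ℝ) - 2)} x

open Pool.Agent.Q224.TD in
/-- For `r ≥ 3` and `k ≥ 4000 (r - 1)^8` the least 2-density of a graph with `k (r - 1)` vertices
and no independent set of size `r` is `(k + 1) / 2`. -/
theorem result (r k : ℕ) (hr : 3 ≤ r) (hk : 4000 * (r - 1) ^ 8 ≤ k) :
    IsLeast {x : ℝ | ∃ G : SimpleGraph (Fin (k * (r - 1))), Gᶜ.CliqueFree r ∧ IsTwoDensity G x}
      (((k : ℝ) + 1) / 2) :=
  Pool.Agent.Q224.TD.final
    (lower cliqueLt minDeg fewHigh cover cross (assign transv) parts cross2 (hit transv) count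
      arith) blocksFree blocksSp blocksEq subLe subEq r k hr hk

end Pool.Agent.Results.MP_303581_co.DivisibleLargeK
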